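import Pool.Agent.TH697.BF6.E0
import Pool.Agent.TH697.BF6.E1
import Pool.Agent.TH697.BF6.E2

set_option autoImplicit false

/-! All types of the table pass the checker. -/

namespace Pool.Agent.TH697.BF6

open Pool.Agent.TH697.CW6

theorem cons_ok {t : BT} {l : List BT} {es : List Ent} (h : chkBT tbl t es = true)
    (hl : ∀ t ∈ l, ∃ es, chkBT tbl t es = true) : ∀ t' ∈ t :: l, ∃ es, chkBT tbl t' es = true := by
  intro t' ht'
  rcases List.mem_cons.1 ht' with h' | h'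
  · subst h'; exact ⟨es, h⟩
  · exact hl t' h'

theorem nil_ok : ∀ t ∈ ([] : List BT), ∃ es, chkBT tbl t es = true :=
  fun _ ht => absurd ht List.not_mem_nil

theorem okB0 : ∀ t ∈ B0, ∃ es, chkBT tbl t es = true :=
  cons_ok ok0 (cons_ok ok1 (cons_ok ok2 (cons_ok ok3 (cons_ok ok4 (cons_ok ok5 (cons_ok ok6
  (cons_ok ok7 (cons_ok ok8 nil_ok))))))))

theorem okB1 : ∀ t ∈ B1, ∃ es, chkBT tbl t es = true :=
  cons_ok ok9 (cons_ok ok10 (cons_ok ok11 (cons_ok ok12 (cons_ok ok13 (cons_ok ok14 (cons_ok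
  ok15 (cons_ok ok16 (cons_ok ok17 nil_ok))))))))

theorem okB2 : ∀ t ∈ B2, ∃ es, chkBT tbl t es = true :=
  cons_ok ok18 (cons_ok ok19 (cons_ok ok20 (cons_ok ok21 (cons_ok ok22 (cons_ok ok23 (cons_ok
  ok24 (cons_ok ok25 (cons_ok ok26 nil_ok))))))))

theorem okB3 : ∀ t ∈ B3, ∃ es, chkBT tbl t es = true :=
  cons_ok ok27 (cons_ok ok28 (cons_ok ok29 (cons_ok ok30 (cons_ok ok31 (cons_ok ok32 (cons_ok
  ok33 (cons_ok ok34 (cons_ok ok35 nil_ok))))))))

theorem okB4 : ∀ t ∈ B4, ∃ es, chkBT tbl t es = true :=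
  cons_ok ok36 (cons_ok ok37 (cons_ok ok38 (cons_ok ok39 (cons_ok ok40 (cons_ok ok41 (cons_ok
  ok42 (cons_ok ok43 (cons_ok ok44 nil_ok))))))))

theorem okB5 : ∀ t ∈ B5, ∃ es, chkBT tbl t es = true :=
  cons_ok ok45 (cons_ok ok46 (cons_ok ok47 (cons_ok ok48 (cons_ok ok49 (cons_ok ok50 (cons_ok
  ok51 (cons_ok ok52 (cons_ok ok53 nil_ok))))))))

theorem okB6 : ∀ t ∈ B6, ∃ es, chkBT tbl t es = true :=
  cons_ok ok54 (cons_ok ok55 (cons_ok ok56 (cons_ok ok57 (cons_ok ok58 (cons_ok ok59 (cons_ok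
  ok60 (cons_ok ok61 (cons_ok ok62 nil_ok))))))))

theorem okB7 : ∀ t ∈ B7, ∃ es, chkBT tbl t es = true :=
  cons_ok ok63 (cons_ok ok64 (cons_ok ok65 (cons_ok ok66 (cons_ok ok67 (cons_ok ok68 (cons_ok
  ok69 (cons_ok ok70 (cons_ok ok71 nil_ok))))))))

theorem okB8 : ∀ t ∈ B8, ∃ es, chkBT tbl t es = true :=
  cons_ok ok72 (cons_ok ok73 (cons_ok ok74 (cons_ok ok75 (cons_ok ok76 (cons_ok ok77 nil_ok)))))

theorem okBB : ∀ B ∈ BB, ∀ t ∈ B, ∃ es, chkBT tbl t es = true := by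
  intro B hB
  simp only [BB, List.mem_cons, List.not_mem_nil, or_false] at hB
  rcases hB with h | h | h | h | h | h | h | h | h
  · subst h; exact okB0
  · subst h; exact okB1
  · subst h; exact okB2
  · subst h; exact okB3
  · subst h; exact okB4
  · subst h; exact okB5
  · subst h; exact okB6
  · subst h; exact okB7
  · subst h; exact okB8

theorem getD_cases {α : Type} (l : List α) (i : ℕ) (d : α) : l.getD i d ∈ l ∨ l.getD i d = d := by
  by_cases h : i < l.length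
  · left
    rw [List.getD_eq_getElem _ _ h]
    exact List.getElem_mem h
  · right
    exact List.getD_eq_default _ _ (not_lt.1 h)

theorem tbl_cases (i : ℕ) : (∃ B ∈ BB, tbl i ∈ B) ∨ tbl i = T0 := by
  unfold tbl
  rcases getD_cases BB (Nat.div i 9) [] with h | h
  · rcases getD_cases (BB.getD (Nat.div i 9) []) (Nat.mod i 9) T0 with h' | h'
    · exact Or.inl ⟨_, h, h'⟩
    · exact Or.inr h'
  · right
    rw [h]
    simp

theorem ok_all (i : ℕ) : ∃ es, chkBT tbl (tbl i) es = true := by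
  rcases tbl_cases i with ⟨B, hB, h⟩ | h
  · exact okBB B hB _ h
  · rw [h]; exact ⟨E0, ok0⟩

theorem pos_all_aux : (BB.all fun B => B.all fun t => Nat.blt 0 t.n) = true := by decide +kernel

theorem pos_all (i : ℕ) : 0 < (tbl i).n := by
  rcases tbl_cases i with ⟨B, hB, h⟩ | h
  · have := List.all_eq_true.1 (List.all_eq_true.1 pos_all_aux B hB) _ h
    exact Nat.le_of_ble_eq_true this
  · rw [h]; exact Nat.one_pos

end Pool.Agent.TH697.BF6
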