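import Pool.Agent.TH697.BF6.Chk
import Pool.Agent.TH697.CW6.St4

set_option autoImplicit false
set_option linter.unusedVariables false
set_option linter.unusedSectionVars false

open Finset
open Pool.Agent.Helper347.Sab

namespace Pool.Agent.TH697.BF6

open Pool.Agent.TH697.CW6

variable {V E : Type} [Fintype V] [DecidableEq V] [Fintype E] [DecidableEq E]

/-! ## the functions of the checker -/

theorem rowB_lt (st j i : ℕ) : rowB st j i < 64 := by
  have : rowB st j i = (st >>> (36 * j + 6 * i)) &&& 63 := rfl
  rw [this]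
  exact lt_of_le_of_lt Nat.and_le_right (by norm_num)

theorem apB_lt (p r : ℕ) : apB p r < 64 := by
  have : apB p r = ((((PL.getD (Nat.div p 27) []).getD (Nat.mod p 27) 0)) >>> (6 * r)) &&& 63 := rfl
  rw [this]
  exact lt_of_le_of_lt Nat.and_le_right (by norm_num)

def sgB (p c : ℕ) : ℕ := Nat.land (Nat.shiftRight SGB (Nat.add (Nat.mul 18 p) (Nat.mul 3 c))) 7

theorem apB_aux : allB 720 (fun p => allB 64 fun r => cond (Nat.beq (pcM r) 4)
    (Nat.beq (pcM (apB p r)) 4 && allB 6 fun c => tb (apB p r) c == tb r (sgB p c)) true) = true := by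
  decide +kernel

theorem sgB_aux : allB 720 (fun p => allB 6 fun c => Nat.blt (sgB p c) 6) = true := by
  decide +kernel

theorem apB_spec {p : ℕ} (hp : p < 720) {r : ℕ} (hr : r < 64) (h4 : pcM r = 4) :
    pcM (apB p r) = 4 ∧ ∀ c < 6, (apB p r).testBit c = r.testBit (sgB p c) := by
  have h := allB_iff.1 (allB_iff.1 apB_aux p hp) r hr
  rw [beq_eq, h4, decide_eq_true rfl, cond_true, Bool.and_eq_true, allB_iff] at h
  refine ⟨Nat.eq_of_beq_eq_true h.1, fun c hc => ?_⟩
  have := h.2 c hc
  rw [beq_iff_eq, tb_eq, tb_eq] at this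
  exact this

theorem sgB_lt {p : ℕ} (hp : p < 720) {c : ℕ} (hc : c < 6) : sgB p c < 6 := by
  have h := allB_iff.1 (allB_iff.1 sgB_aux p hp) c hc
  rw [blt_eq, decide_eq_true_eq] at h
  exact h

/-- f gives four of six colours to each edge meeting X, each colour even at each vertex of X -/
def ValB (G : MGraph V E) (X : Finset V) (f : E → ℕ) : Prop :=
  (∀ e, f e < 64) ∧
  (∀ w ∈ X, ∀ c < 6, Even (dg G (univ.filter fun e => (f e).testBit c = true) w)) ∧
  ∀ e, Tch G X e → pcM (f e) = 4

structure InvB (G : MGraph V E) (X : Finset V) (t : BT) (o : ℕ → E) : Prop where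
  inv : Inv G ∅ X t.ty o
  sts : ∀ j < t.n, ∃ f, ValB G X f ∧ ∀ i < t.k, f (o i) = rowB t.st j i

variable {G : MGraph V E} {X : Finset V} {t : BT} {o : ℕ → E} {v : V}
  {lm b r : ℕ} {n : ℕ → E}

theorem stsB_step (C : Ctx G ∅ X t.ty o v lm b r n) {k' s' c st' : ℕ}
    (P : Prt t.ty lm b r k' s' c) (hk' : k' ≤ 6) (st0 j0 j : ℕ) {f : E → ℕ} (hf : ValB G X f)
    (hfo : ∀ i < t.k, f (o i) = rowB st0 j0 i)
    (hx0 : rowB st0 j0 0 ^^^ (rowB st0 j0 1 ^^^ (rowB st0 j0 2 ^^^ (rowB st0 j0 3 ^^^
      (rowB st0 j0 4 ^^^ rowB st0 j0 5)))) = 0)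
    (hz0 : ∀ i, t.k ≤ i → i < 6 → rowB st0 j0 i = 0)
    (hx1 : rowB st' j 0 ^^^ (rowB st' j 1 ^^^ (rowB st' j 2 ^^^ (rowB st' j 3 ^^^
      (rowB st' j 4 ^^^ rowB st' j 5)))) = 0)
    (hz1 : ∀ i, k' ≤ i → i < 6 → rowB st' j i = 0)
    (hw1 : ∀ i < k', pcM (rowB st' j i) = 4)
    {p : ℕ} (hp : p < 720)
    (hrow : ∀ i < k', dig c i < 6 → rowB st' j i = apB p (rowB st0 j0 (dig c i))) :
    ∃ f', ValB G (insert v X) f' ∧ ∀ i < k', f' (src o n (dig c i)) = rowB st' j i := by
  classical
  obtain ⟨hf1, hf2, hf3⟩ := hf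
  obtain ⟨f', hf'⟩ : ∃ f' : E → ℕ, f' = fun e =>
      if Tch G X e then apB p (f e) else
        if h : ∃ i, i < k' ∧ src o n (dig c i) = e then rowB st' j (Nat.find h) else 0 := ⟨_, rfl⟩
  have hA : ∀ e, Tch G X e → f' e = apB p (f e) := by
    intro e he; rw [hf']; simp only [if_pos he]
  have hB : ∀ e, Tch G X e → ∀ c' < 6, (f' e).testBit c' = (f e).testBit (sgB p c') := by
    intro e he c' hc'
    rw [hA e he]
    exact (apB_spec hp (hf1 e) (hf3 e he)).2 c' hc'
  have hO : ∀ i < k', f' (src o n (dig c i)) = rowB st' j i := by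
    intro i hi
    rcases C.src_cases (P.p1 i hi) with ⟨h6, hxk, hs1, hs2, hs3⟩ | ⟨h6, hxr, hs1, hs2, hs3⟩
    · rw [hs1, hA _ (tch_of_cut hs2), hfo _ hxk, hrow i hi h6]
    · have hnt : ¬ Tch G X (src o n (dig c i)) := by rw [hs1]; exact C.ntch hxr
      have hex : ∃ i', i' < k' ∧ src o n (dig c i') = src o n (dig c i) := ⟨i, hi, rfl⟩
      rw [hf']
      simp only [if_neg hnt, dif_pos hex]
      have h1 := Nat.find_spec hex
      have h2 := P.p3 _ h1.1 i hi (C.src_inj (P.p1 _ h1.1) (P.p1 i hi) h1.2)
      rw [h2]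
  refine ⟨f', ⟨?_, ?_, ?_⟩, hO⟩
  · intro e
    by_cases he : Tch G X e
    · rw [hA e he]; exact apB_lt _ _
    · rw [hf']
      simp only [if_neg he]
      split_ifs
      · exact rowB_lt _ _ _
      · norm_num
  · intro w hw c' hc'
    by_cases hwX : w ∈ X
    · have : dg G (univ.filter fun e => (f' e).testBit c' = true) w =
          dg G (univ.filter fun e => (f e).testBit (sgB p c') = true) w := by
        unfold dg
        congr 1
        rw [filter_filter, filter_filter]
        apply filter_congr
        intro e _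
        constructor
        · rintro ⟨h1, h2⟩
          rw [hB e ⟨w, hwX, h2⟩ c' hc'] at h1
          exact ⟨h1, h2⟩
        · rintro ⟨h1, h2⟩
          rw [hB e ⟨w, hwX, h2⟩ c' hc']
          exact ⟨h1, h2⟩
      rw [this]
      exact hf2 w hwX _ (sgB_lt hp hc')
    · have hwv : w = v := by
        rcases mem_insert.1 hw with h | h
        · exact h
        · exact absurd h hwX
      subst hwv
      have hP1 : Even ((cut G X).filter fun e => (f' e).testBit c' = true).card := by
        have h1 : ((cut G X).filter fun e => (f' e).testBit c' = true) =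
            ((range t.k).filter fun i => (rowB st0 j0 i).testBit (sgB p c') = true).image o := by
          ext e
          rw [mem_filter, mem_image]
          constructor
          · rintro ⟨he, hb⟩
            obtain ⟨i, hi, hie⟩ := C.inv.sur e he
            refine ⟨i, ?_, hie⟩
            rw [mem_filter, mem_range]
            refine ⟨hi, ?_⟩
            rw [hB e (tch_of_cut he) c' hc', ← hie, hfo i hi] at hb
            exact hb
          · rintro ⟨i, hi, hie⟩
            rw [mem_filter, mem_range] at hi
            have he : e ∈ cut G X := by rw [← hie]; exact C.inv.mem i hi.1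
            refine ⟨he, ?_⟩
            rw [hB e (tch_of_cut he) c' hc', ← hie, hfo i hi.1]
            exact hi.2
        rw [h1, card_image_of_injOn]
        · exact even_rows _ _ C.hk hx0 hz0 _
        · intro i hi i' hi' h
          rw [mem_coe, mem_filter, mem_range] at hi hi'
          exact C.inv.inj i hi.1 i' hi'.1 h
      have hP2 : Even ((cut G (insert w X)).filter fun e => (f' e).testBit c' = true).card := by
        have h1 : ((cut G (insert w X)).filter fun e => (f' e).testBit c' = true) =
            ((range k').filter fun i => (rowB st' j i).testBit c' = true).image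
              (fun i => src o n (dig c i)) := by
          ext e
          rw [mem_filter, mem_image]
          constructor
          · rintro ⟨he, hb⟩
            obtain ⟨x, hx, hxe⟩ := C.src_sur he
            obtain ⟨i, hi, hix⟩ := P.p2 x hx
            refine ⟨i, ?_, by rw [hix]; exact hxe⟩
            rw [mem_filter, mem_range]
            refine ⟨hi, ?_⟩
            rw [← hO i hi, hix, hxe]
            exact hb
          · rintro ⟨i, hi, hie⟩
            rw [mem_filter, mem_range] at hi
            have he : e ∈ cut G (insert w X) := by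
              rw [← hie]; exact C.src_mem (P.p1 i hi.1)
            refine ⟨he, ?_⟩
            rw [← hie, hO i hi.1]
            exact hi.2
        rw [h1, card_image_of_injOn]
        · exact even_rows _ _ hk' hx1 hz1 _
        · intro i hi i' hi' h
          rw [mem_coe, mem_filter, mem_range] at hi hi'
          exact P.p3 i hi.1 i' hi'.1 (C.src_inj (P.p1 i hi.1) (P.p1 i' hi'.1) h)
      have hsplit1 : ((cut G X).filter fun e => (f' e).testBit c' = true).card =
          ((cut G X).filter fun e => (f' e).testBit c' = true ∧ w ∈ G.ends e).card +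
          ((cut G X).filter fun e => (f' e).testBit c' = true ∧ w ∉ G.ends e).card := by
        rw [← card_union_of_disjoint]
        · congr 1
          ext e
          simp only [mem_filter, mem_union]
          tauto
        · rw [disjoint_left]
          intro e h1 h2
          rw [mem_filter] at h1 h2
          exact h2.2.2 h1.2.2
      have hsplit2 : ((cut G (insert w X)).filter fun e => (f' e).testBit c' = true).card =
          ((cut G X).filter fun e => (f' e).testBit c' = true ∧ w ∉ G.ends e).card +
          (univ.filter fun e => (f' e).testBit c' = true ∧ w ∈ G.ends e ∧ e ∉ cut G X).card := by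
        rw [← card_union_of_disjoint]
        · congr 1
          ext e
          simp only [mem_filter, mem_union, mem_univ, true_and]
          rw [cut_insert hwX]
          tauto
        · rw [disjoint_left]
          intro e h1 h2
          rw [mem_filter] at h1 h2
          exact h2.2.2.2 h1.1
      have hsplit3 : dg G (univ.filter fun e => (f' e).testBit c' = true) w =
          ((cut G X).filter fun e => (f' e).testBit c' = true ∧ w ∈ G.ends e).card +
          (univ.filter fun e => (f' e).testBit c' = true ∧ w ∈ G.ends e ∧ e ∉ cut G X).card := by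
        unfold dg
        rw [← card_union_of_disjoint]
        · congr 1
          ext e
          simp only [mem_filter, mem_union, mem_univ, true_and]
          tauto
        · rw [disjoint_left]
          intro e h1 h2
          rw [mem_filter] at h1 h2
          exact h2.2.2.2 h1.1
      rw [hsplit1] at hP1
      rw [hsplit2] at hP2
      rw [hsplit3]
      obtain ⟨a1, ha1⟩ := hP1
      obtain ⟨a2, ha2⟩ := hP2
      rw [Nat.even_iff]
      omega
  · intro e he
    by_cases hX : Tch G X e
    · rw [hA e hX]; exact (apB_spec hp (hf1 e) (hf3 e hX)).1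
    · have hve : v ∈ G.ends e := by
        rcases tch_insert.1 he with h | h
        · exact absurd h hX
        · exact h
      have hc : e ∈ cut G (insert v X) := by
        rw [cut_insert C.hv]
        exact Or.inr ⟨hve, fun h => hX (tch_of_cut h)⟩
      obtain ⟨x, hx, hxe⟩ := C.src_sur hc
      obtain ⟨i, hi, hix⟩ := P.p2 x hx
      have h1 : f' e = rowB st' j i := by rw [← hO i hi, hix, hxe]
      rw [h1, hw1 i hi]

/-- no pattern at v is excluded -/
theorem not_exclB (C : Ctx G ∅ X t.ty o v lm b r n)
    (h2 : ∀ Z : Finset V, Z.Nonempty → Z ≠ univ → 2 ≤ (cut G Z).card)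
    (hfs : ∀ Q ∈ t.fs, Q.1 < 2 ^ t.k) : exclB t lm = false := by
  cases hex : exclB t lm
  · rfl
  exfalso
  unfold exclB at hex
  rw [List.any_eq_true] at hex
  obtain ⟨P, hP, h⟩ := hex
  have hr : Nat.sub 3 (pcM lm) = r := by
    have h1 : Nat.sub 3 (pcM lm) = 3 - pcM lm := rfl
    have := C.hr; omega
  rw [hr, Bool.or_eq_true, blt_eq, blt_eq, decide_eq_true_eq, decide_eq_true_eq] at h
  have hQk := hfs P hP
  have hPf := C.inv.fct P hP
  rcases h with h | h
  · have := C.fact_cut h2 hQk hPf
    have e2 : Nat.add (Nat.add (pcM (rem P.1 lm)) r) (Nat.add P.2 (pcM (rem lm P.1))) =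
      pcM (rem P.1 lm) + r + (P.2 + pcM (rem lm P.1)) := rfl
    omega
  · have hflip := Fct_flip hPf C.inv.mem
    have hx : ∀ i, (Nat.xor (CW6.full t.k) P.1).testBit i =
        (decide (i < t.k) ^^ P.1.testBit i) := by
      intro i
      have e3 : Nat.xor (CW6.full t.k) P.1 = CW6.full t.k ^^^ P.1 := rfl
      rw [e3, Nat.testBit_xor, full_testBit]
    have hlt : Nat.xor (CW6.full t.k) P.1 < 2 ^ t.k := by
      have e3 : Nat.xor (CW6.full t.k) P.1 = CW6.full t.k ^^^ P.1 := rfl
      have e4 : CW6.full t.k = 2 ^ t.k - 1 := by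
        have : CW6.full t.k = (1 <<< t.k) - 1 := rfl
        rw [this, Nat.one_shiftLeft]
      rw [e3]
      apply Nat.xor_lt_two_pow
      · rw [e4]; have : 0 < 2 ^ t.k := by positivity
        omega
      · exact hQk
    have := C.fact_cut h2 hlt (Fct_congr hflip (fun i hi => by
      have hi' : i < t.k := hi
      rw [hx i, decide_eq_true hi']
      cases P.1.testBit i <;> simp) le_rfl)
    have e2 : Nat.add (Nat.add (pcM (rem (Nat.xor (CW6.full t.k) P.1) lm)) r)
        (Nat.add P.2 (pcM (rem lm (Nat.xor (CW6.full t.k) P.1)))) =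
      pcM (rem (Nat.xor (CW6.full t.k) P.1) lm) + r +
        (P.2 + pcM (rem lm (Nat.xor (CW6.full t.k) P.1))) := rfl
    omega

theorem goB_spec (tbl : ℕ → BT) (t : BT) : ∀ (ps : List ℕ) (es : List Ent),
    goB tbl t ps es = true → ∀ p ∈ ps, exclB t p = true ∨ ∃ e, chkB tbl t p e = true := by
  intro ps
  induction ps with
  | nil => intro es _ p hp; exact absurd hp List.not_mem_nil
  | cons q ps ih =>
    intro es h p hp
    unfold goB at h
    cases hx : exclB t q
    · rw [hx, cond_false] at h
      cases es with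
      | nil => exact absurd h (by simp)
      | cons e es' =>
        simp only at h
        cases hc : chkB tbl t q e
        · rw [hc, cond_false] at h; exact absurd h (by simp)
        · rw [hc, cond_true] at h
          rcases List.mem_cons.1 hp with hp | hp
          · subst hp; exact Or.inr ⟨e, hc⟩
          · exact ih es' h p hp
    · rw [hx, cond_true] at h
      rcases List.mem_cons.1 hp with hp | hp
      · subst hp; exact Or.inl hx
      · exact ih es h p hp

structure OkBT (t : BT) : Prop where
  hk : t.k ≤ 6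
  hfs : ∀ Q ∈ t.fs, Q.1 < 2 ^ t.k
  hx : ∀ j < t.n, rowB t.st j 0 ^^^ (rowB t.st j 1 ^^^ (rowB t.st j 2 ^^^ (rowB t.st j 3 ^^^
      (rowB t.st j 4 ^^^ rowB t.st j 5)))) = 0
  hw : ∀ j < t.n, ∀ i < t.k, pcM (rowB t.st j i) = 4
  hz : ∀ j < t.n, ∀ i, t.k ≤ i → i < 6 → rowB t.st j i = 0

theorem pcM_zero64 : ∀ m < 64, pcM m = 0 → m = 0 := by decide +kernel

theorem okB_spec (h : okB t = true) : OkBT t := by
  unfold okB at h
  simp only [Bool.and_eq_true, allB_iff, List.all_eq_true] at h
  obtain ⟨h1, h4, h5⟩ := h
  rw [ble_iff] at h1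
  have key : ∀ j < t.n, ∀ i < 6, pcM (rowB t.st j i) = if i < t.k then 4 else 0 := by
    intro j hj i hi
    have := Nat.eq_of_beq_eq_true ((h5 j hj).2 i hi)
    rw [this, blt_eq]
    by_cases h7 : i < t.k
    · rw [decide_eq_true h7, cond_true, if_pos h7]
    · rw [decide_eq_false h7, cond_false, if_neg h7]
  refine ⟨h1, ?_, ?_, ?_, ?_⟩
  · intro Q hQ
    have := h4 Q hQ
    rw [blt_eq, decide_eq_true_eq] at this
    have e : Nat.shiftLeft 1 t.k = 1 <<< t.k := rfl
    rw [e, Nat.one_shiftLeft] at this
    exact this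
  · intro j hj
    exact Nat.eq_of_beq_eq_true (h5 j hj).1
  · intro j hj i hi
    rw [key j hj i (by omega), if_pos hi]
  · intro j hj i hi h6
    apply pcM_zero64 _ (rowB_lt _ _ _)
    rw [key j hj i h6, if_neg (by omega)]

/-- one step -/
theorem stepB (hcub : IsCubic G)
    (h2 : ∀ Z : Finset V, Z.Nonempty → Z ≠ univ → 2 ≤ (cut G Z).card)
    (tbl : ℕ → BT) (hok : ∀ i, ∃ es, chkBT tbl (tbl i) es = true)
    {i0 : ℕ} (I : InvB G X (tbl i0) o) (hv : v ∉ X)
    (h6 : (cut G (insert v X)).card ≤ 6) :
    ∃ i1 o', InvB G (insert v X) (tbl i1) o' := by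
  obtain ⟨es, hes⟩ := hok i0
  unfold chkBT at hes
  rw [Bool.and_eq_true] at hes
  have O := okB_spec hes.1
  obtain ⟨lm, b, r, n, C⟩ := exists_ctx hcub O.hk I.inv hv
  have hb0 : b = 0 := by
    by_contra hb
    have hbr := C.hb
    have := (C.hnS 0 (by omega)).2 (by omega)
    exact absurd this (notMem_empty _)
  subst hb0
  have hlmk : lm < 2 ^ (tbl i0).k := by
    by_contra hcon
    push Not at hcon
    obtain ⟨i, hi, hi2⟩ := Nat.exists_ge_and_testBit_of_ge_two_pow hcon
    have := ((C.hlm i).1 hi2).1
    have e : (tbl i0).ty.k = (tbl i0).k := rfl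
    omega
  have hr := C.hr
  have hk : (tbl i0).k ≤ 6 := O.hk
  have hcc : (cut G (insert v X)).card = (tbl i0).k + 3 - 2 * pcM lm := C.card_cut
  have hne1 : (tbl i0).k + 3 - 2 * pcM lm ≠ 1 := by
    rw [← hcc]
    by_cases hu : insert v X = univ
    · have : cut G (insert v X) = ∅ := by
        rw [hu]
        unfold cut
        rw [filter_eq_empty_iff]
        rintro e _ ⟨_, w, hw, _⟩
        exact hw (mem_univ _)
      rw [this]; simp
    · have := h2 (insert v X) (insert_nonempty _ _) hu
      omega
  have hmem : lm ∈ patsB (tbl i0).k := by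
    unfold patsB
    rw [List.mem_map]
    refine ⟨(lm, 0), ?_, rfl⟩
    rw [List.mem_filter]
    exact ⟨pats_complete _ (by omega) lm hlmk 0 (by omega) (by omega) (by omega) (by omega) hne1,
      rfl⟩
  rcases goB_spec tbl _ _ _ hes.2 lm hmem with hex | ⟨e, he⟩
  · rw [not_exclB C h2 O.hfs] at hex
    exact absurd hex (by simp)
  · obtain ⟨es1, hes1⟩ := hok e.ti
    unfold chkBT at hes1
    rw [Bool.and_eq_true] at hes1
    have O1 := okB_spec hes1.1
    unfold chkB at he
    refine ⟨e.ti, fun i => src o n (dig e.c i), ?_⟩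
    revert he O1
    generalize tbl e.ti = t1
    obtain ⟨k', n', st', fs'⟩ := t1
    intro he O1
    dsimp only at he
    simp only [Bool.and_eq_true, allB_iff, List.all_eq_true] at he
    obtain ⟨g1, g2, g5, g6⟩ := he
    have P := C.prt g2
    refine ⟨⟨?_, ?_, ?_, ?_, ?_, ?_, ?_, ?_⟩, ?_⟩
    · intro i hi; exact C.src_mem (P.p1 i hi)
    · intro e' he'
      obtain ⟨x, hx, hxe⟩ := C.src_sur he'
      obtain ⟨i, hi, hix⟩ := P.p2 x hx
      exact ⟨i, hi, by rw [hix]; exact hxe⟩
    · intro i hi j hj hij
      exact P.p3 i hi j hj (C.src_inj (P.p1 i hi) (P.p1 j hj) hij)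
    · intro i hi
      constructor
      · intro h; exact absurd h (notMem_empty _)
      · intro h
        have e3 : (BT.ty ⟨k', n', st', fs'⟩).s = 0 := rfl
        omega
    · intro j hj
      have e3 : (BT.ty ⟨k', n', st', fs'⟩).s = 0 := rfl
      omega
    · intro hcl
      have e3 : (BT.ty ⟨k', n', st', fs'⟩).cl = false := rfl
      rw [e3] at hcl
      exact absurd hcl (by simp)
    · intro Q hQ
      exact C.fct_step P.p1 O.hfs Q (g5 Q hQ)
    · intro j hj
      have e3 : (BT.ty ⟨k', n', st', fs'⟩).n = 0 := rfl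
      omega
    · intro j hj
      unfold statesB at g6
      rw [allB_iff] at g6
      have := g6 j hj
      simp only at this
      cases hc : (Nat.blt (Nat.shiftRight (Nat.land (Nat.shiftRight e.ws (Nat.mul 20 j)) 1048575) 10)
          (tbl i0).n && Nat.blt (Nat.land (Nat.land (Nat.shiftRight e.ws (Nat.mul 20 j)) 1048575)
            1023) 720)
      · rw [hc, cond_false] at this; exact absurd this (by simp)
      · rw [hc, cond_true, allB_iff] at this
        rw [Bool.and_eq_true, blt_eq, blt_eq, decide_eq_true_eq, decide_eq_true_eq] at hc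
        obtain ⟨f, hf, hfo⟩ := I.sts _ hc.1
        refine stsB_step C P O1.hk _ _ j hf hfo (O.hx _ hc.1) (O.hz _ hc.1) (O1.hx j hj)
          (O1.hz j hj) (O1.hw j hj) hc.2 ?_
        intro i hi hd
        have := this i hi
        rw [blt_eq, decide_eq_true hd, cond_true] at this
        exact Nat.eq_of_beq_eq_true this

end Pool.Agent.TH697.BF6
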