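import Pool.Agent.TH697.BF6.All
import Pool.Agent.TH697.BF6.St

set_option autoImplicit false
set_option linter.unusedVariables false
set_option linter.unusedSectionVars false

open Finset
open Pool.Agent.Helper347.Sab

namespace Pool.Agent.TH697.BF6

open Pool.Agent.TH697.CW6

variable {V E : Type} [Fintype V] [DecidableEq V] [Fintype E] [DecidableEq E]

/-- Connected and without a bridge: every set of vertices other than the empty set and the whole
vertex set is left by at least two edges. -/
def TwoEdgeConnected (G : MGraph V E) : Prop :=
  ∀ X : Finset V, X.Nonempty → X ≠ univ → 2 ≤ (cut G X).card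

/-- Cutwidth at most w: the vertices can be numbered injectively such that for every t at most w
edges join a vertex with number smaller than t to a vertex with number at least t. -/
def CutwidthLE (G : MGraph V E) (w : ℕ) : Prop :=
  ∃ r : V → ℕ, Function.Injective r ∧ ∀ t, (cut G (univ.filter fun v => r v < t)).card ≤ w

/-- six even subgraphs covering every edge exactly four times -/
theorem six_even (G : MGraph V E) (hcub : IsCubic G) (h2 : TwoEdgeConnected G)
    (hw : CutwidthLE G 6) :
    ∃ F : Fin 6 → Finset E, (∀ i v, Even (dg G (F i) v)) ∧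
      ∀ e, (univ.filter fun i => e ∈ F i).card = 4 := by
  rcases isEmpty_or_nonempty E with hE | hE
  · exact ⟨fun _ => ∅, fun i v => by unfold dg; simp, fun e => isEmptyElim e⟩
  obtain ⟨e0⟩ := hE
  obtain ⟨r, hr, hcut⟩ := hw
  have main : ∀ T, ∃ i o, InvB G (univ.filter fun v => r v < T) (tbl i) o := by
    intro T
    induction T with
    | zero =>
      have h0 : (univ.filter fun v => r v < 0) = (∅ : Finset V) := by
        rw [filter_eq_empty_iff]; intro v _; omega
      rw [h0]
      refine ⟨0, fun _ => e0, ?_⟩
      have hk : (tbl 0).k = 0 := rfl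
      have hk' : (tbl 0).ty.k = 0 := rfl
      have hs : (tbl 0).ty.s = 0 := rfl
      have hcl : (tbl 0).ty.cl = false := rfl
      have hfs : (tbl 0).ty.fs = [] := rfl
      have hn : (tbl 0).ty.n = 0 := rfl
      refine ⟨⟨?_, ?_, ?_, ?_, ?_, ?_, ?_, ?_⟩, ?_⟩
      · intro i hi; rw [hk'] at hi; omega
      · intro e he
        obtain ⟨w, hw, _⟩ := tch_of_cut he
        exact absurd hw (notMem_empty _)
      · intro i hi; rw [hk'] at hi; omega
      · intro i hi; rw [hk'] at hi; omega
      · intro i hi; rw [hs] at hi; omega
      · intro h; rw [hcl] at h; exact absurd h (by simp)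
      · intro P hP; rw [hfs] at hP; exact absurd hP List.not_mem_nil
      · intro j hj; rw [hn] at hj; omega
      · intro j hj
        refine ⟨fun _ => 0, ⟨fun _ => by norm_num, ?_, ?_⟩, ?_⟩
        · intro w hw; exact absurd hw (notMem_empty _)
        · rintro e ⟨w, hw, _⟩; exact absurd hw (notMem_empty _)
        · intro i hi; rw [hk] at hi; omega
    | succ T ih =>
      obtain ⟨i, o, I⟩ := ih
      by_cases h : ∃ v, r v = T
      · obtain ⟨v, hv⟩ := h
        have h1 : (univ.filter fun w => r w < T + 1) = insert v (univ.filter fun w => r w < T) := by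
          ext w
          rw [mem_insert, mem_filter, mem_filter]
          constructor
          · rintro ⟨_, h⟩
            rcases Nat.lt_succ_iff_lt_or_eq.1 h with h | h
            · exact Or.inr ⟨mem_univ _, h⟩
            · left; apply hr; rw [h, hv]
          · rintro (h | ⟨_, h⟩)
            · subst h; exact ⟨mem_univ _, by omega⟩
            · exact ⟨mem_univ _, by omega⟩
        have hvX : v ∉ (univ.filter fun w => r w < T) := by
          rw [mem_filter, hv]; rintro ⟨_, h⟩; omega
        have hc := hcut (T + 1)
        rw [h1] at hc
        obtain ⟨i1, o1, I1⟩ := stepB hcub h2 tbl ok_all I hvX hc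
        refine ⟨i1, o1, ?_⟩
        rw [h1]
        exact I1
      · have h1 : (univ.filter fun w => r w < T + 1) = (univ.filter fun w => r w < T) := by
          apply filter_congr
          intro w _
          constructor
          · intro h'
            rcases Nat.lt_succ_iff_lt_or_eq.1 h' with h' | h'
            · exact h'
            · exact absurd ⟨w, h'⟩ h
          · intro h'; omega
        rw [h1]
        exact ⟨i, o, I⟩
  obtain ⟨i, o, I⟩ := main (univ.sup r + 1)
  have hu : (univ.filter fun v => r v < univ.sup r + 1) = (univ : Finset V) := by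
    rw [filter_eq_self]
    intro v hv
    exact Nat.lt_succ_of_le (le_sup (f := r) hv)
  rw [hu] at I
  obtain ⟨f, ⟨hf1, hf2, hf3⟩, _⟩ := I.sts 0 (pos_all i)
  refine ⟨fun c => univ.filter fun e => (f e).testBit c = true, ?_, ?_⟩
  · intro c v
    exact hf2 v (mem_univ _) c c.isLt
  · intro e
    have ht : Tch G univ e := by
      obtain ⟨a, b, _, h⟩ := exists_ends G e
      exact ⟨a, mem_univ _, by rw [h]; simp⟩
    rw [← hf3 e ht]
    have : ∀ m < 64, (univ.filter fun i : Fin 6 => Nat.testBit m i = true).card = pcM m := by
      decide +kernel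
    rw [← this (f e) (hf1 e)]
    congr 1
    apply filter_congr
    intro c _
    rw [mem_filter]
    simp

/-- in a cubic graph the complements of such even subgraphs are perfect matchings -/
theorem six_matchings (G : MGraph V E) (hcub : IsCubic G) (F : Fin 6 → Finset E)
    (h1 : ∀ i v, Even (dg G (F i) v)) (h2 : ∀ e, (univ.filter fun i => e ∈ F i).card = 4) :
    ∀ i v, dg G (univ \ F i) v = 1 := by
  have hsum : ∀ v, ∑ i, dg G (F i) v = 12 := by
    intro v
    have e1 : ∀ i, dg G (F i) v = ∑ e ∈ univ.filter (fun e => v ∈ G.ends e),
        if e ∈ F i then 1 else 0 := by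
      intro i
      unfold dg
      rw [← card_filter]
      congr 1
      ext e
      simp only [mem_filter, mem_univ, true_and]
      tauto
    simp only [e1]
    rw [sum_comm]
    have e2 : ∀ e, (∑ i : Fin 6, if e ∈ F i then 1 else 0) = 4 := by
      intro e; rw [← card_filter]; exact h2 e
    simp only [e2]
    rw [sum_const]
    have : (univ.filter fun e => v ∈ G.ends e).card = 3 := hcub v
    rw [this]
    rfl
  have hle : ∀ i v, dg G (F i) v ≤ 2 := by
    intro i v
    have h3 : dg G (F i) v ≤ dg G univ v := by
      unfold dg
      exact card_le_card (filter_subset_filter _ (subset_univ _))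
    have h4 := hcub v
    obtain ⟨q, hq⟩ := h1 i v
    omega
  have heq : ∀ i v, dg G (F i) v = 2 := by
    intro i v
    by_contra hne
    have hlt : dg G (F i) v < 2 := lt_of_le_of_ne (hle i v) hne
    have : ∑ i, dg G (F i) v < ∑ _i : Fin 6, 2 :=
      sum_lt_sum (fun j _ => hle j v) ⟨i, mem_univ _, hlt⟩
    rw [hsum v] at this
    simp at this
  intro i v
  have h5 : dg G (univ \ F i) v + dg G (F i) v = dg G univ v := by
    unfold dg
    rw [← card_union_of_disjoint, ← filter_union]
    · congr 2
      exact sdiff_union_of_subset (subset_univ _)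
    · rw [disjoint_left]
      intro e h6 h7
      rw [mem_filter, mem_sdiff] at h6
      rw [mem_filter] at h7
      exact h6.1.2 h7.1
  have h8 := hcub v
  have h9 := heq i v
  omega

end Pool.Agent.TH697.BF6
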